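import Pool.Agent.H97.HV.Targets4
import Pool.Agent.H97.HV.Asm
import Pool.Agent.H54.WM.Asm

/-!
# MP_e37c09_lc: row WNEC. Embeddings of HOD(V_ ξ) at club many points
-/

open Ordinal Cardinal Order Set
open scoped ZFSet

universe u

namespace HD.HW.H97

open HD.PRK HD.HV Pool.Agent.H54.WM

theorem pemb_of_eq {γ ξ κ : Ordinal.{u}} {j jj : ZFSet.{u} → ZFSet.{u}}
    (hξ : 0 < ξ) (hγ : 0 < γ) (h : PEmb γ ξ κ j)
    (he : ∀ x, WV γ ξ x → jj x = j x) : PEmb γ ξ κ jj := by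
  refine ⟨fun x hx => ?_, fun φ v hv => ?_, fun x hx hxV => ?_, ?_⟩
  · rw [he x hx]
    exact h.map x hx
  · have e : jj ∘ v = j ∘ v := by
      funext n
      exact he _ (hv n)
    rw [e]
    exact h.elem φ v hv
  · have hx' : WV γ ξ x := WV_of_HW (mem_HW.2 ⟨hxV, hx⟩)
    rw [he x hx']
    exact h.fix x hx hxV
  · have hx' : WV γ ξ ξ.toZFSet := ⟨Pool.Agent.H14.HV.nv_ord (lt_min hγ hξ) _, by
      rw [ZFSet.subset_vonNeumann, rank_toZFSet]⟩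
    rw [he _ hx']
    exact h.crit

theorem pf_NEC (h1 : HD.HW.T_MAI.{u}) (h2 : HD.HW.T_CLB.{u}) : HD.HW.T_NEC.{u} := by
  intro δ hδ hA K hK hδK hμ γ hγ hV
  obtain ⟨D0, hD0, hD0r, hD0s, hD0u⟩ := Pool.Agent.H97.HV.base hδ
  have hpos : 0 < δ := by
    rw [hD0]
    exact (Cardinal.isSuccLimit_ord hD0u.le).bot_lt
  obtain ⟨D, g1, -, g3, g4⟩ := All.gr δ hδ hA 0 hpos
  have hDK : succ D < K := by
    rw [hD0] at g1 hδK
    exact (hD0s.isSuccLimit.succ_lt (Cardinal.ord_lt_ord.1 g1)).trans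
      (Cardinal.ord_lt_ord.1 hδK)
  have hK0 : ℵ₀ < K := by
    rw [hD0] at hδK
    exact hD0u.trans (Cardinal.ord_lt_ord.1 hδK)
  have hpow := SO.X g3.1 g3.2.1 g3.2.2.1 g4 hK ((lt_succ D).trans hDK) hμ
  obtain ⟨C, hC, hC'⟩ := h2 K hK hK0 hpow γ hγ.lim hV
  refine ⟨C, hC, fun ξ hξ hξK hcof => ?_⟩
  obtain ⟨j, hB, hCC⟩ := hC' ξ hξ hξK hcof
  obtain ⟨M, jj, hW⟩ := h1 γ ξ K.ord j hB hCC
  refine ⟨hB.lξ, M, jj, hW.tra, hW.map, hW.elem,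
    pemb_of_eq hB.lξ.bot_lt hB.lγ.bot_lt hB.emb hW.ext, fun x hx => ⟨fun hM => ?_, fun hN => ?_⟩,
    hW.pow⟩
  · refine hW.pow x hM fun y hy => ?_
    rw [ZFSet.mem_vonNeumann] at hx ⊢
    exact (ZFSet.rank_lt_of_mem hy).trans hx
  · exact hW.low x (mem_HW.2 ⟨hx, hN⟩)

end HD.HW.H97
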