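import Pool.Agent.H97.HV.Targets4

/-!
# MP_e37c09_lc: row WELE. The embedding is elementary
-/

open Ordinal Cardinal Order Set
open scoped ZFSet

universe u

namespace HD.HW.H97

open HD.PRK HD.HV Pool.Agent.H54.WM

theorem pr_replicate (k n : ℕ) : pr n (tup (List.replicate k (∅ : ZFSet.{u}))) = ∅ := by
  rw [pr_tup]
  unfold sv
  rw [List.getD_eq_getElem?_getD, List.getElem?_replicate]
  split_ifs <;> rfl

theorem pf_ELE (hLOS : HD.HW.T_LOS.{u}) (hTR : HD.HW.T_TR.{u}) (hST : HD.HW.T_ST.{u}) :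
    HD.HW.T_ELE.{u} := by
  intro γ ξ κ j h π hπ φ v hv
  have h1 := hST γ ξ κ j π hπ φ (fun n => ct h.gξ h.gκ h.lκ (v n) (hv n))
  have hc : tup (List.replicate (bd φ) (∅ : ZFSet.{u})) ∈ HW γ κ := tup_mem_HW h.gκ h.lκ (by
    intro x hx
    rw [List.eq_of_mem_replicate hx]
    exact empty_mem_HW h.gκ h.lκ)
  have h2 := hLOS γ ξ κ j h φ (fun n => ct h.gξ h.gκ h.lκ (v n) (hv n)) (bd φ) _ le_rfl hc
    (fun n _ => pr_replicate _ n)
  refine Iff.trans ?_ (h2.symm.trans h1)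
  have hval : ∀ w ∈ HW γ ξ, (fun n => ap (cst γ ξ (v n)) (pr n w)) = v := by
    intro w hw
    funext n
    exact ap_cst (pr_mem_HW h.gξ h.lξ n hw)
  have hTS : TS γ ξ φ (fun n => (ct (κ := κ) h.gξ h.gκ h.lκ (v n) (hv n)).f) =
      ZFSet.sep (fun _ => Sat (NV (min γ ξ)) φ v) (HW γ ξ) := by
    ext w
    rw [mem_TS, ZFSet.mem_sep]
    refine and_congr_right fun hw => ?_
    show Sat (NV (min γ ξ)) φ (fun n => ap (cst γ ξ (v n)) (pr n w)) ↔ _
    rw [hval w hw]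
  rw [hTS]
  obtain ⟨-, hV, h0⟩ := hTR γ ξ κ j h
  by_cases hs : Sat (NV (min γ ξ)) φ v
  · have e : ZFSet.sep (fun _ => Sat (NV (min γ ξ)) φ v) (HW γ ξ) = HW γ ξ := by
      ext w
      rw [ZFSet.mem_sep]
      exact ⟨fun h => h.1, fun h => ⟨h, hs⟩⟩
    rw [e, hV]
    exact iff_of_true hs hc
  · have e : ZFSet.sep (fun _ => Sat (NV (min γ ξ)) φ v) (HW γ ξ) = ∅ := by
      rw [ZFSet.eq_empty]
      intro w hw
      exact hs (ZFSet.mem_sep.1 hw).2
    rw [e, h0]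
    exact iff_of_false hs (ZFSet.notMem_empty _)

end HD.HW.H97
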